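import Pool.Agent.Lib.VMT.Graph3
import Pool.Agent.Lib.VMT.Data.Final

/-!
# Vertex-magic total labelings of 2-regular graphs (MP_4cc966_co)

A finite 2-regular graph has a vertex-magic total labeling if and only if it is not the disjoint
union of two triangles.

The proof: a cut system is a labeling together with ten windows (five for edge labels, five for
vertex labels) such that any number of steps can be inserted into the windows at the same time,
keeping the interval of labels and the magic constant. Blocks of `r` steps insert `6 r` new
vertices, as new cycles, or by lengthening a marked cycle, or by closing the marked cycle and
opening a new one. A finite tree of such reductions shows by induction on the number of vertices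
that every multiset of lengths with at least 15 vertices, except six triangles, is reached from
finitely many seeds; the blocks, the seeds and the tree are checked by computation in the kernel.
-/

set_option autoImplicit false

namespace Pool.Agent.Results.MP_4cc966_co.TwoRegular

open Pool.Agent.VMT

theorem result {V : Type*} [Fintype V] [DecidableEq V] (G : SimpleGraph V)
    [DecidableRel G.Adj] (hG : G.IsRegularOfDegree 2) :
    HasVMTL G ↔ ¬ Nonempty (G ≃g twoK3) :=
  main G all_vm hG

end Pool.Agent.Results.MP_4cc966_co.TwoRegular
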